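import Mathlib

/-!
# CB-PROJ: the graded ring
-/

set_option autoImplicit false

open DirectSum

namespace Pool.Agent.W933.CB

variable (k : Type) {E : Type} [Field k] [Field E] [Algebra k E] {I : Type} (ξ : I → E)

/-- forms of degree one -/
def W1 : Submodule k E := Submodule.span k (Set.range ξ)

/-- forms of degree `d` -/
def Vd (d : ℕ) : Submodule k E := (W1 k ξ) ^ d

lemma one_mem_V0 : (1 : E) ∈ Vd k ξ 0 := by
  unfold Vd
  rw [pow_zero]
  exact Submodule.one_le.1 le_rfl

lemma V_mul {a b : ℕ} {x y : E} (hx : x ∈ Vd k ξ a) (hy : y ∈ Vd k ξ b) :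
    x * y ∈ Vd k ξ (a + b) := by
  unfold Vd at *
  rw [pow_add]
  exact Submodule.mul_mem_mul hx hy

lemma xi_mem (i : I) : ξ i ∈ Vd k ξ 1 := by
  unfold Vd
  rw [pow_one]
  exact Submodule.subset_span ⟨i, rfl⟩

lemma V_pow (i : I) (n : ℕ) : ξ i ^ n ∈ Vd k ξ n := by
  induction n with
  | zero => rw [pow_zero]; exact one_mem_V0 k ξ
  | succ n ih => rw [pow_succ]; exact V_mul k ξ ih (xi_mem k ξ i)

lemma V_zero_iff (e : E) : e ∈ Vd k ξ 0 ↔ ∃ c : k, algebraMap k E c = e := by
  unfold Vd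
  rw [pow_zero]
  exact Submodule.mem_one

/-- induction for forms -/
lemma V_ind (P : ∀ d : ℕ, E → Prop) (h0 : ∀ c : k, P 0 (algebraMap k E c))
    (h1 : ∀ i, P 1 (ξ i)) (hz : ∀ d, P d 0) (hadd : ∀ d x y, x ∈ Vd k ξ d → y ∈ Vd k ξ d →
      P d x → P d y → P d (x + y))
    (hmul : ∀ a b x y, x ∈ Vd k ξ a → y ∈ Vd k ξ b → P a x → P b y → P (a + b) (x * y)) :
    ∀ d x, x ∈ Vd k ξ d → P d x := by
  have hsm : ∀ d (c : k) x, x ∈ Vd k ξ d → P d x → P d (c • x) := by
    intro d c x hx h
    have h2 := hmul 0 d (algebraMap k E c) x ((V_zero_iff k ξ _).2 ⟨c, rfl⟩) hx (h0 c) h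
    rwa [zero_add, ← Algebra.smul_def] at h2
  have h1' : ∀ x ∈ W1 k ξ, x ∈ Vd k ξ 1 ∧ P 1 x := by
    intro x hx
    unfold W1 at hx
    induction hx using Submodule.span_induction with
    | mem x h =>
      obtain ⟨i, rfl⟩ := h
      exact ⟨xi_mem k ξ i, h1 i⟩
    | zero => exact ⟨Submodule.zero_mem _, hz 1⟩
    | add x y _ _ hx hy => exact ⟨Submodule.add_mem _ hx.1 hy.1, hadd _ _ _ hx.1 hy.1 hx.2 hy.2⟩
    | smul c x _ hx => exact ⟨Submodule.smul_mem _ _ hx.1, hsm _ _ _ hx.1 hx.2⟩
  intro d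
  induction d with
  | zero =>
    intro x hx
    obtain ⟨c, rfl⟩ := (V_zero_iff k ξ x).1 hx
    exact h0 c
  | succ d ih =>
    intro x hx
    unfold Vd at hx
    rw [pow_succ] at hx
    have : (x ∈ Vd k ξ (d + 1)) ∧ P (d + 1) x := by
      induction hx using Submodule.mul_induction_on' with
      | mem_mul_mem m hm n hn =>
        exact ⟨V_mul k ξ hm (h1' n hn).1, hmul _ _ _ _ hm (h1' n hn).1 (ih m hm) (h1' n hn).2⟩
      | add x _ y _ hx hy =>
        exact ⟨Submodule.add_mem _ hx.1 hy.1, hadd _ _ _ hx.1 hy.1 hx.2 hy.2⟩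
    exact this.2

/-- the graded ring -/
def RA : Subring (Polynomial E) where
  carrier := {p | ∀ d, p.coeff d ∈ Vd k ξ d}
  zero_mem' := fun d => by rw [Polynomial.coeff_zero]; exact Submodule.zero_mem _
  one_mem' := fun d => by
    rw [Polynomial.coeff_one]
    split_ifs with h
    · subst h; exact one_mem_V0 k ξ
    · exact Submodule.zero_mem _
  add_mem' := fun {p q} hp hq d => by
    rw [Polynomial.coeff_add]; exact Submodule.add_mem _ (hp d) (hq d)
  neg_mem' := fun {p} hp d => by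
    rw [Polynomial.coeff_neg]; exact Submodule.neg_mem _ (hp d)
  mul_mem' := fun {p q} hp hq d => by
    rw [Polynomial.coeff_mul]
    refine Submodule.sum_mem _ fun x hx => ?_
    rw [Finset.HasAntidiagonal.mem_antidiagonal] at hx
    rw [← hx]
    exact V_mul k ξ (hp _) (hq _)

/-- the grading -/
def GA (d : ℕ) : AddSubgroup (RA k ξ) where
  carrier := {p | ∀ j, j ≠ d → (p : Polynomial E).coeff j = 0}
  zero_mem' := fun j _ => by simp
  add_mem' := fun {p q} hp hq j hj => by
    rw [Subring.coe_add, Polynomial.coeff_add, hp j hj, hq j hj, add_zero]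
  neg_mem' := fun {p} hp j hj => by
    change (-(p : Polynomial E)).coeff j = 0
    rw [Polynomial.coeff_neg, hp j hj, neg_zero]

lemma mem_GA {d : ℕ} {p : RA k ξ} :
    p ∈ GA k ξ d ↔ ∀ j, j ≠ d → (p : Polynomial E).coeff j = 0 := Iff.rfl

/-- a form as an element of the graded ring -/
noncomputable def mo (d : ℕ) (c : E) (hc : c ∈ Vd k ξ d) : RA k ξ :=
  ⟨Polynomial.monomial d c, fun j => by
    rw [Polynomial.coeff_monomial]
    split_ifs with h
    · subst h; exact hc
    · exact Submodule.zero_mem _⟩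

lemma coe_mo (d : ℕ) (c : E) (hc : c ∈ Vd k ξ d) :
    ((mo k ξ d c hc : RA k ξ) : Polynomial E) = Polynomial.monomial d c := rfl

lemma mo_mem (d : ℕ) (c : E) (hc : c ∈ Vd k ξ d) : mo k ξ d c hc ∈ GA k ξ d := by
  intro j hj
  rw [coe_mo, Polynomial.coeff_monomial, if_neg (Ne.symm hj)]

lemma mo_coeff (d : ℕ) (p : RA k ξ) (hp : p ∈ GA k ξ d) :
    p = mo k ξ d ((p : Polynomial E).coeff d) (p.2 d) := by
  apply Subtype.ext
  rw [coe_mo]
  ext j
  rw [Polynomial.coeff_monomial]
  split_ifs with h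
  · rw [h]
  · exact hp j (Ne.symm h)

lemma mo_mul (a b : ℕ) (x y : E) (hx : x ∈ Vd k ξ a) (hy : y ∈ Vd k ξ b) :
    mo k ξ (a + b) (x * y) (V_mul k ξ hx hy) = mo k ξ a x hx * mo k ξ b y hy := by
  apply Subtype.ext
  rw [Subring.coe_mul, coe_mo, coe_mo, coe_mo, Polynomial.monomial_mul_monomial]

lemma mo_add (a : ℕ) (x y : E) (hx : x ∈ Vd k ξ a) (hy : y ∈ Vd k ξ a) :
    mo k ξ a (x + y) (Submodule.add_mem _ hx hy) = mo k ξ a x hx + mo k ξ a y hy := by
  apply Subtype.ext
  rw [Subring.coe_add, coe_mo, coe_mo, coe_mo, map_add]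

lemma mo_zero (a : ℕ) : mo k ξ a 0 (Submodule.zero_mem _) = 0 := by
  apply Subtype.ext
  rw [coe_mo, map_zero]; rfl

lemma mo_congr {a b : ℕ} {x y : E} (hx : x ∈ Vd k ξ a) (hy : y ∈ Vd k ξ b) (h : a = b)
    (h' : x = y) : mo k ξ a x hx = mo k ξ b y hy := by
  subst h; subst h'; rfl

instance : SetLike.GradedMonoid (GA k ξ) where
  one_mem := fun j hj => by
    change (1 : Polynomial E).coeff j = 0
    rw [Polynomial.coeff_one, if_neg hj]
  mul_mem a b p q hp hq := fun j hj => by
    change ((p : Polynomial E) * (q : Polynomial E)).coeff j = 0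
    rw [Polynomial.coeff_mul]
    refine Finset.sum_eq_zero fun x hx => ?_
    rw [Finset.HasAntidiagonal.mem_antidiagonal] at hx
    by_cases h1 : x.1 = a
    · by_cases h2 : x.2 = b
      · exact absurd (by rw [← hx, h1, h2]) hj
      · rw [hq _ h2, mul_zero]
    · rw [hp _ h1, zero_mul]

lemma isInternal_GA : DirectSum.IsInternal (GA k ξ) := by
  classical
  constructor
  · rw [injective_iff_map_eq_zero]
    intro y hy
    have hsum : ∑ b ∈ DFinsupp.support y, ((y b : RA k ξ) : Polynomial E) = 0 := by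
      have h1 := congrArg (RA k ξ).subtype hy
      rw [DirectSum.coeAddMonoidHom_eq_dfinsuppSum, DFinsupp.sum, map_sum, map_zero] at h1
      exact h1
    ext d : 1
    by_cases hd : d ∈ DFinsupp.support y
    · have h2 := congrArg (fun p : Polynomial E => p.coeff d) hsum
      simp only [Polynomial.finsetSum_coeff, Polynomial.coeff_zero] at h2
      rw [Finset.sum_eq_single_of_mem d hd] at h2
      · apply Subtype.ext
        rw [mo_coeff k ξ d (y d : RA k ξ) (y d).2]
        apply Subtype.ext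
        rw [coe_mo, h2, map_zero]
        rfl
      · intro b _ hbd
        exact (y b).2 d (Ne.symm hbd)
    · have := DFinsupp.notMem_support_iff.mp hd
      rw [this]; rfl
  · intro s
    refine ⟨∑ d ∈ (s : Polynomial E).support, DirectSum.of (fun d => GA k ξ d) d
      ⟨mo k ξ d ((s : Polynomial E).coeff d) (s.2 d), mo_mem k ξ d _ _⟩, ?_⟩
    rw [map_sum]
    simp only [DirectSum.coeAddMonoidHom_of]
    apply Subtype.ext
    change (RA k ξ).subtype _ = _
    rw [map_sum]
    change ∑ d ∈ (s : Polynomial E).support, Polynomial.monomial d ((s : Polynomial E).coeff d) = _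
    exact (Polynomial.as_sum_support (s : Polynomial E)).symm

noncomputable instance : GradedRing (GA k ξ) where
  __ := (isInternal_GA k ξ).chooseDecomposition
  one_mem := SetLike.GradedOne.one_mem
  mul_mem := SetLike.GradedMul.mul_mem

/-- the coordinates -/
noncomputable def ys (i : I) : RA k ξ := mo k ξ 1 (ξ i) (xi_mem k ξ i)

lemma ys_mem (i : I) : ys k ξ i ∈ GA k ξ 1 := mo_mem k ξ 1 _ _

lemma ys_ne (hξ : ∀ i, ξ i ≠ 0) (i : I) : ys k ξ i ≠ 0 := by
  intro h
  have h1 := congrArg (fun p : RA k ξ => (p : Polynomial E).coeff 1) h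
  simp only [ys, coe_mo, Polynomial.coeff_monomial, if_pos, Subring.coe_zero,
    Polynomial.coeff_zero] at h1
  exact hξ i h1

/-- forms of positive degree are in the ideal generated by the coordinates -/
lemma mo_mem_ideal : ∀ d x (hx : x ∈ Vd k ξ d), 0 < d →
    mo k ξ d x hx ∈ Ideal.span (Set.range (ys k ξ)) := by
  have key := V_ind k ξ (fun d x => ∀ (hx : x ∈ Vd k ξ d), 0 < d →
    mo k ξ d x hx ∈ Ideal.span (Set.range (ys k ξ))) ?_ ?_ ?_ ?_ ?_
  · intro d x hx hd
    exact key d x hx hx hd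
  · intro c _ h; omega
  · intro i hx _
    exact Ideal.subset_span ⟨i, rfl⟩
  · intro d hx _
    rw [mo_zero]; exact Ideal.zero_mem _
  · intro d x y hx hy h1 h2 hxy hd
    rw [mo_add k ξ d x y hx hy]
    exact Ideal.add_mem _ (h1 hx hd) (h2 hy hd)
  · intro a b x y hx hy h1 h2 hxy hd
    rw [mo_mul k ξ a b x y hx hy]
    rcases Nat.eq_zero_or_pos a with ha | ha
    · exact Ideal.mul_mem_left _ _ (h2 hy (by omega))
    · exact Ideal.mul_mem_right _ _ (h1 hx ha)

/-- the constants -/
noncomputable def cst : k →+* GA k ξ 0 where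
  toFun c := ⟨mo k ξ 0 (algebraMap k E c) ((V_zero_iff k ξ _).2 ⟨c, rfl⟩), mo_mem k ξ 0 _ _⟩
  map_one' := by
    apply Subtype.ext; apply Subtype.ext
    change Polynomial.monomial 0 (algebraMap k E 1) = 1
    rw [map_one]; rfl
  map_zero' := by
    apply Subtype.ext; apply Subtype.ext
    change Polynomial.monomial 0 (algebraMap k E 0) = 0
    rw [map_zero, map_zero]
  map_mul' a b := by
    apply Subtype.ext; apply Subtype.ext
    change Polynomial.monomial 0 (algebraMap k E (a * b)) =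
      Polynomial.monomial 0 (algebraMap k E a) * Polynomial.monomial 0 (algebraMap k E b)
    rw [map_mul, Polynomial.monomial_mul_monomial]
  map_add' a b := by
    apply Subtype.ext; apply Subtype.ext
    change Polynomial.monomial 0 (algebraMap k E (a + b)) =
      Polynomial.monomial 0 (algebraMap k E a) + Polynomial.monomial 0 (algebraMap k E b)
    rw [map_add, map_add]

lemma coe_cst (c : k) : (((cst k ξ c : GA k ξ 0) : RA k ξ) : Polynomial E) =
    Polynomial.monomial 0 (algebraMap k E c) := rfl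

lemma cst_bijective : Function.Bijective (cst k ξ) := by
  constructor
  · intro a b hab
    have h1 := congrArg (fun p : GA k ξ 0 => ((p : RA k ξ) : Polynomial E).coeff 0) hab
    simp only [coe_cst, Polynomial.coeff_monomial, if_pos] at h1
    exact (algebraMap k E).injective h1
  · intro p
    obtain ⟨c, hc⟩ := (V_zero_iff k ξ _).1 ((p : RA k ξ).2 0)
    refine ⟨c, ?_⟩
    apply Subtype.ext
    rw [mo_coeff k ξ 0 (p : RA k ξ) p.2]
    apply Subtype.ext
    rw [coe_cst, coe_mo, hc]

instance finiteType_RA [Finite I] : Algebra.FiniteType (GA k ξ 0) (RA k ξ) := by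
  refine ⟨⟨(Set.finite_range (ys k ξ)).toFinset, ?_⟩⟩
  rw [Set.Finite.coe_toFinset, eq_top_iff]
  intro p _
  have key := V_ind k ξ (fun d x => ∀ (hx : x ∈ Vd k ξ d),
    mo k ξ d x hx ∈ Algebra.adjoin (GA k ξ 0) (Set.range (ys k ξ))) ?_ ?_ ?_ ?_ ?_
  · have hp : p = ∑ d ∈ (p : Polynomial E).support, mo k ξ d ((p : Polynomial E).coeff d) (p.2 d) := by
      apply Subtype.ext
      change _ = (RA k ξ).subtype _
      rw [map_sum]
      exact Polynomial.as_sum_support (p : Polynomial E)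
    rw [hp]
    exact Subalgebra.sum_mem _ fun d _ => key d _ (p.2 d) (p.2 d)
  · intro c hx
    have := Subalgebra.algebraMap_mem (Algebra.adjoin (GA k ξ 0) (Set.range (ys k ξ))) (cst k ξ c)
    exact this
  · intro i hx
    exact Algebra.subset_adjoin ⟨i, rfl⟩
  · intro d hx
    rw [mo_zero]; exact Subalgebra.zero_mem _
  · intro d x y hx hy h1 h2 hxy
    rw [mo_add k ξ d x y hx hy]
    exact Subalgebra.add_mem _ (h1 hx) (h2 hy)
  · intro a b x y hx hy h1 h2 hxy
    rw [mo_mul k ξ a b x y hx hy]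
    exact Subalgebra.mul_mem _ (h1 hx) (h2 hy)

/-- the affine coordinate rings -/
lemma chart_ring (hξ : ∀ i, ξ i ≠ 0) (i : I) (e : E) :
    e ∈ Algebra.adjoin k (Set.range fun j => ξ j / ξ i) ↔
      ∃ (n : ℕ) (c : E), c ∈ Vd k ξ n ∧ e = c / ξ i ^ n := by
  constructor
  · intro he
    induction he using Algebra.adjoin_induction with
    | mem x h =>
      obtain ⟨j, rfl⟩ := h
      exact ⟨1, ξ j, xi_mem k ξ j, by simp⟩
    | algebraMap c => exact ⟨0, algebraMap k E c, (V_zero_iff k ξ _).2 ⟨c, rfl⟩, by simp⟩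
    | add x y _ _ hx hy =>
      obtain ⟨n, c, hc, rfl⟩ := hx
      obtain ⟨m, b, hb, rfl⟩ := hy
      refine ⟨n + m, c * ξ i ^ m + ξ i ^ n * b, Submodule.add_mem _
        (V_mul k ξ hc (V_pow k ξ i m)) (V_mul k ξ (V_pow k ξ i n) hb), ?_⟩
      have := hξ i
      rw [pow_add]
      field_simp
    | mul x y _ _ hx hy =>
      obtain ⟨n, c, hc, rfl⟩ := hx
      obtain ⟨m, b, hb, rfl⟩ := hy
      refine ⟨n + m, c * b, V_mul k ξ hc hb, ?_⟩
      have := hξ i
      rw [pow_add]
      field_simp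
  · rintro ⟨n, c, hc, rfl⟩
    have key := V_ind k ξ (fun d x => x / ξ i ^ d ∈
      Algebra.adjoin k (Set.range fun j => ξ j / ξ i)) ?_ ?_ ?_ ?_ ?_
    · exact key n c hc
    · intro c
      rw [pow_zero, div_one]
      exact Subalgebra.algebraMap_mem _ c
    · intro j
      rw [pow_one]
      exact Algebra.subset_adjoin ⟨j, rfl⟩
    · intro d
      rw [zero_div]; exact Subalgebra.zero_mem _
    · intro d x y _ _ h1 h2
      rw [add_div]; exact Subalgebra.add_mem _ h1 h2
    · intro a b x y _ _ h1 h2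
      have := Subalgebra.mul_mem _ h1 h2
      have h3 : x / ξ i ^ a * (y / ξ i ^ b) = x * y / ξ i ^ (a + b) := by
        rw [pow_add, div_mul_div_comm]
      rwa [h3] at this

end Pool.Agent.W933.CB
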