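import Pool.Agent.H187R3.TaskC

/-!
# CB-PROJ: the embedding of the function field
-/

set_option autoImplicit false

open AlgebraicGeometry CategoryTheory HomogeneousLocalization

namespace Pool.Agent.W933.CB

/-- The embedding of the function field of `Proj 𝒜` in `E`. -/
theorem exists_emb {A E F : Type} [CommRing A] [IsDomain A] [Field E] [Field F] (j : E →+* F)
    (ι : A →+* F) (hι : Function.Injective ι) (𝒜 : ℕ → AddSubgroup A)
    [GradedRing 𝒜] [IsIntegral (Proj 𝒜)]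
    (hE : ∀ d, ∀ s ∈ 𝒜 d, ∀ f ∈ 𝒜 d, f ≠ 0 → ∃ e : E, j e = ι s / ι f) :
    ∃ κ : (Proj 𝒜).functionField →+* E,
      ∀ (m : ℕ) (_ : 0 < m) (f : A) (hf : f ∈ 𝒜 m) (_ : f ≠ 0) (n : ℕ) (s : A)
        (hs : s ∈ 𝒜 (n * m)) (hη : genericPoint (Proj 𝒜) ∈ Proj.basicOpen 𝒜 f),
        j (κ ((Proj 𝒜).presheaf.germ (Proj.basicOpen 𝒜 f) (genericPoint (Proj 𝒜)) hη
          (Proj.awayToSection 𝒜 f (Away.mk 𝒜 hf n s hs)))) = ι s / ι f ^ n := by
  let η : ProjectiveSpectrum 𝒜 := genericPoint (Proj 𝒜)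
  let P := η.asHomogeneousIdeal.toIdeal
  have hu : ∀ y : P.primeCompl, IsUnit (ι (y : A)) := by
    intro y
    have hy : (y : A) ≠ 0 := fun h0 => y.2 (h0 ▸ zero_mem _)
    have : ι (y : A) ≠ 0 := by
      intro h0
      exact hy (hι (by rw [h0, map_zero]))
    exact isUnit_iff_ne_zero.2 this
  let L : Localization P.primeCompl →+* F := IsLocalization.lift (M := P.primeCompl) hu
  let L0 : AtPrime 𝒜 P →+* F := L.comp (algebraMap (AtPrime 𝒜 P) (Localization P.primeCompl))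
  have hLr : ∀ z : AtPrime 𝒜 P, L0 z ∈ j.range := by
    intro z
    obtain ⟨c, rfl⟩ := HomogeneousLocalization.mk_surjective z
    have hden : (c.den : A) ≠ 0 := fun h0 => c.den_mem (h0 ▸ zero_mem _)
    obtain ⟨e, he⟩ := hE c.deg c.num c.num.2 c.den c.den.2 hden
    refine ⟨e, ?_⟩
    rw [he]
    change _ = L ((HomogeneousLocalization.mk c).val)
    rw [HomogeneousLocalization.val_mk, Localization.mk_eq_mk']
    symm
    refine (IsLocalization.lift_mk'_spec hu _ _ _).2 ?_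
    have hdF : ι (c.den : A) ≠ 0 := fun h0 => hden (hι (by rw [h0, map_zero]))
    change ι (c.num : A) = ι (c.den : A) * (ι (c.num : A) / ι (c.den : A))
    field_simp
  let e0 : E ≃+* j.range := RingEquiv.ofBijective j.rangeRestrict
    ⟨fun _ _ h => j.injective (congrArg Subtype.val h), j.rangeRestrict_surjective⟩
  let L1 : AtPrime 𝒜 P →+* E := (e0.symm : j.range →+* E).comp (L0.codRestrict j.range hLr)
  have hL1 : ∀ z, j (L1 z) = L0 z := by
    intro z
    have h := e0.apply_symm_apply (L0.codRestrict j.range hLr z)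
    exact congrArg Subtype.val h
  let κ : (Proj 𝒜).functionField →+* E := L1.comp (stalkToFiberRingHom 𝒜 η).hom
  refine ⟨κ, ?_⟩
  intro m hm f hf hf0 n s hs hη
  have h1 : (stalkToFiberRingHom 𝒜 η).hom ((Proj 𝒜).presheaf.germ (Proj.basicOpen 𝒜 f)
      (genericPoint (Proj 𝒜)) hη (Proj.awayToSection 𝒜 f (Away.mk 𝒜 hf n s hs))) =
      (Proj.awayToSection 𝒜 f (Away.mk 𝒜 hf n s hs)).1 ⟨η, hη⟩ :=
    stalkToFiberRingHom_germ 𝒜 (Proj.basicOpen 𝒜 f) η hη _
  have h2 : j (κ ((Proj 𝒜).presheaf.germ (Proj.basicOpen 𝒜 f) (genericPoint (Proj 𝒜)) hη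
      (Proj.awayToSection 𝒜 f (Away.mk 𝒜 hf n s hs)))) =
      L (((Proj.awayToSection 𝒜 f (Away.mk 𝒜 hf n s hs)).1 ⟨η, hη⟩).val) := by
    rw [← h1]
    exact hL1 _
  rw [h2]
  have h3 := ProjectiveSpectrum.Proj.awayToSection_apply 𝒜 f (Away.mk 𝒜 hf n s hs) ⟨η, hη⟩
  have h4 : ((Proj.awayToSection 𝒜 f (Away.mk 𝒜 hf n s hs)).1 ⟨η, hη⟩).val =
      IsLocalization.map (M := Submonoid.powers f) (T := P.primeCompl) _
        (RingHom.id _) (Submonoid.powers_le.mpr hη) (Away.mk 𝒜 hf n s hs).val := h3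
  rw [h4, Away.val_mk, Localization.mk_eq_mk', IsLocalization.map_mk']
  have hfF : ι f ≠ 0 := fun h0 => hf0 (hι (by rw [h0, map_zero]))
  refine (IsLocalization.lift_mk'_spec hu _ _ _).2 ?_
  show ι s = ι (f ^ n) * (ι s / ι f ^ n)
  rw [map_pow]
  field_simp

end Pool.Agent.W933.CB
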