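import Pool.Agent.W933.CB.Alg
import Pool.Agent.W933.CB.Emb
import Pool.Agent.W525.CB.Stm

/-!
# CB-PROJ: the scheme
-/

set_option autoImplicit false

open AlgebraicGeometry CategoryTheory HomogeneousLocalization Order

namespace Pool.Agent.W933.CB

open Pool.Agent.H187R3 Pool.Agent.W525.CB

variable (k : Type) {E : Type} [Field k] [Field E] [Algebra k E] {I : Type} (ξ : I → E)

/-- The scheme. -/
noncomputable abbrev PX : Scheme.{0} := Proj (GA k ξ)

theorem integral_PX [Nonempty I] (hξ : ∀ i, ξ i ≠ 0) : IsIntegral (PX k ξ) :=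
  proj_isIntegral (GA k ξ) ⟨1, one_pos, ys k ξ (Classical.arbitrary I), ys_mem k ξ _,
    ys_ne k ξ hξ _⟩

/-- the specification of the embedding -/
def KSpec [IsIntegral (PX k ξ)] (κ : (PX k ξ).functionField →+* E) : Prop :=
  ∀ (i : I) (n : ℕ) (s : RA k ξ) (hs : s ∈ GA k ξ (n * 1))
    (hη : genericPoint (PX k ξ) ∈ Proj.basicOpen (GA k ξ) (ys k ξ i)),
    κ ((PX k ξ).presheaf.germ (Proj.basicOpen (GA k ξ) (ys k ξ i)) (genericPoint (PX k ξ)) hη
      (Proj.awayToSection (GA k ξ) (ys k ξ i) (Away.mk (GA k ξ) (ys_mem k ξ i) n s hs))) =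
        (s : Polynomial E).coeff n / ξ i ^ n

lemma mono_val (n : ℕ) (s : RA k ξ) (hs : s ∈ GA k ξ n) :
    (algebraMap (Polynomial E) (FractionRing (Polynomial E))) (s : Polynomial E) =
      (algebraMap (Polynomial E) (FractionRing (Polynomial E)))
        (Polynomial.C ((s : Polynomial E).coeff n)) *
      (algebraMap (Polynomial E) (FractionRing (Polynomial E))) Polynomial.X ^ n := by
  rw [← map_pow, ← map_mul, Polynomial.C_mul_X_pow_eq_monomial]
  congr 1
  have := congrArg Subtype.val (mo_coeff k ξ n s hs)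
  exact this

theorem exists_kap [IsIntegral (PX k ξ)] (hξ : ∀ i, ξ i ≠ 0) :
    ∃ κ : (PX k ξ).functionField →+* E, KSpec k ξ κ := by
  set am := algebraMap (Polynomial E) (FractionRing (Polynomial E)) with ham
  have hinj : Function.Injective am := IsFractionRing.injective _ _
  have hT : am Polynomial.X ≠ 0 := by
    intro h
    exact Polynomial.X_ne_zero (hinj (by rw [h, map_zero]))
  let j : E →+* FractionRing (Polynomial E) := am.comp Polynomial.C
  let ι : RA k ξ →+* FractionRing (Polynomial E) := am.comp (RA k ξ).subtype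
  have hι : Function.Injective ι := hinj.comp Subtype.val_injective
  have hval : ∀ n (s : RA k ξ), s ∈ GA k ξ n →
      ι s = j ((s : Polynomial E).coeff n) * am Polynomial.X ^ n := by
    intro n s hs
    exact mono_val k ξ n s hs
  obtain ⟨κ, hκ⟩ := exists_emb j ι hι (GA k ξ) (by
    intro d s hs f hf hf0
    refine ⟨(s : Polynomial E).coeff d / (f : Polynomial E).coeff d, ?_⟩
    rw [hval d s hs, hval d f hf, map_div₀, mul_div_mul_right _ _ (pow_ne_zero d hT)])
  refine ⟨κ, ?_⟩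
  intro i n s hs hη
  apply j.injective
  rw [hκ 1 one_pos (ys k ξ i) (ys_mem k ξ i) (ys_ne k ξ hξ i) n s hs hη]
  have hs' : s ∈ GA k ξ n := by simpa using hs
  have h1 : ((ys k ξ i : RA k ξ) : Polynomial E).coeff 1 = ξ i := by
    rw [ys, coe_mo, Polynomial.coeff_monomial, if_pos rfl]
  rw [hval n s hs', hval 1 _ (ys_mem k ξ i), h1, pow_one, mul_pow, map_div₀, map_pow,
    mul_div_mul_right _ _ (pow_ne_zero n hT)]

/-- the charts cover -/
theorem cover_PX (x : PX k ξ) : ∃ i : I, x ∈ Proj.basicOpen (GA k ξ) (ys k ξ i) := by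
  classical
  by_contra hcon
  push Not at hcon
  have hmem : ∀ i, ys k ξ i ∈ x.asHomogeneousIdeal.toIdeal := by
    intro i
    have := hcon i
    rw [Proj.mem_basicOpen, not_not] at this
    exact this
  have hspan : Ideal.span (Set.range (ys k ξ)) ≤ x.asHomogeneousIdeal.toIdeal := by
    rw [Ideal.span_le]
    rintro _ ⟨i, rfl⟩
    exact hmem i
  apply ProjectiveSpectrum.not_irrelevant_le x
  intro z hz
  have hz' : z ∈ HomogeneousIdeal.irrelevant (GA k ξ) := hz
  rw [HomogeneousIdeal.mem_irrelevant_iff, GradedRing.proj_apply] at hz'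
  rw [← DirectSum.sum_support_decompose (GA k ξ) z]
  refine Ideal.sum_mem _ fun d _ => ?_
  by_cases hd : d = 0
  · subst hd
    rw [hz']
    exact Ideal.zero_mem _
  · rw [mo_coeff k ξ d _ (SetLike.coe_mem (DirectSum.decompose (GA k ξ) z d))]
    exact hspan (mo_mem_ideal k ξ d _ _ (Nat.pos_of_ne_zero hd))

lemma generic_mem_of [Nonempty I] [IsIntegral (PX k ξ)] (hξ : ∀ i, ξ i ≠ 0) (f : RA k ξ)
    (hf : f ≠ 0) : genericPoint (PX k ξ) ∈ Proj.basicOpen (GA k ξ) f := by
  have h := genericPoint_spec (PX k ξ)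
  refine (h.mem_open_set_iff (Proj.basicOpen (GA k ξ) f).2).mpr ?_
  refine ⟨projZeroPoint (GA k ξ) ⟨1, one_pos, ys k ξ (Classical.arbitrary I), ys_mem k ξ _,
    ys_ne k ξ hξ _⟩, trivial, ?_⟩
  show f ∉ (⊥ : HomogeneousIdeal (GA k ξ)).toIdeal
  rw [HomogeneousIdeal.toIdeal_bot]
  simpa using hf

lemma generic_mem_one' [IsIntegral (PX k ξ)] :
    genericPoint (PX k ξ) ∈ Proj.basicOpen (GA k ξ) 1 := by
  rw [Proj.basicOpen_one]; trivial

/-- the map from the degree zero part to the global sections -/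
noncomputable def phi : CommRingCat.of (GA k ξ 0) ⟶ Γ(PX k ξ, ⊤) :=
  CommRingCat.ofHom (fromZeroRingHom (GA k ξ) (Submonoid.powers 1)) ≫
    Proj.awayToSection (GA k ξ) 1 ≫
    (PX k ξ).presheaf.map (homOfLE (Proj.basicOpen_one (GA k ξ)).ge).op

lemma toSpecZero_eq' : Proj.toSpecZero (GA k ξ) = (PX k ξ).toSpecΓ ≫ Spec.map (phi k ξ) := by
  rw [phi, Proj.toSpecZero, Proj.basicOpenToSpec, Spec.map_comp, Spec.map_comp]
  simp only [Category.assoc]
  have h1 := Scheme.Opens.toSpecΓ_SpecMap_presheaf_map ⊤ (Proj.basicOpen (GA k ξ) 1)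
    (Proj.basicOpen_one (GA k ξ)).ge
  rw [Scheme.Opens.toSpecΓ_top] at h1
  rw [Scheme.isoOfEq_inv]
  have h2 : (Scheme.topIso (PX k ξ)).inv ≫ (PX k ξ).homOfLE (Proj.basicOpen_one (GA k ξ)).ge ≫
      (Proj.basicOpen (GA k ξ) 1).toSpecΓ = (PX k ξ).toSpecΓ ≫
        Spec.map ((PX k ξ).presheaf.map (homOfLE (Proj.basicOpen_one (GA k ξ)).ge).op) := by
    rw [← h1, Category.assoc, ← Category.assoc, Scheme.toIso_inv_ι, Category.id_comp]
  rw [← Category.assoc, ← Category.assoc, Category.assoc (Scheme.topIso _).inv, h2]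
  simp only [Category.assoc]

lemma kap_phi [Nonempty I] [IsIntegral (PX k ξ)] (hξ : ∀ i, ξ i ≠ 0)
    (κ : (PX k ξ).functionField →+* E) (hκ : KSpec k ξ κ) (a : GA k ξ 0) :
    κ ((PX k ξ).presheaf.germ ⊤ (genericPoint (PX k ξ)) trivial
    ((phi k ξ).hom a)) = ((a : RA k ξ) : Polynomial E).coeff 0 := by
  let i : I := Classical.arbitrary I
  have hη := generic_mem_of k ξ hξ (ys k ξ i) (ys_ne k ξ hξ i)
  have h1 := Proj.awayMap_awayToSection (𝒜 := GA k ξ) (f := 1) (ys_mem k ξ i)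
    (x := ys k ξ i) (one_mul _).symm
  have h2 := congrArg (fun φ => φ.hom (fromZeroRingHom (GA k ξ) (Submonoid.powers 1) a)) h1
  simp only [CommRingCat.hom_comp, CommRingCat.hom_ofHom, RingHom.comp_apply] at h2
  rw [awayMap_fromZeroRingHom] at h2
  have h3 : (PX k ξ).presheaf.germ ⊤ (genericPoint (PX k ξ)) trivial ((phi k ξ).hom a) =
      (PX k ξ).presheaf.germ (Proj.basicOpen (GA k ξ) (ys k ξ i)) (genericPoint (PX k ξ)) hη
        (Proj.awayToSection (GA k ξ) (ys k ξ i) (Away.mk (GA k ξ) (ys_mem k ξ i) 0 (a : RA k ξ)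
          (by simp))) := by
    have h4 : (PX k ξ).presheaf.germ ⊤ (genericPoint (PX k ξ)) trivial ((phi k ξ).hom a) =
        (PX k ξ).presheaf.germ (Proj.basicOpen (GA k ξ) 1) (genericPoint (PX k ξ))
          (generic_mem_one' k ξ)
          ((Proj.awayToSection (GA k ξ) 1).hom
            (fromZeroRingHom (GA k ξ) (Submonoid.powers 1) a)) :=
      TopCat.Presheaf.germ_res_apply (PX k ξ).presheaf
        (homOfLE (Proj.basicOpen_one (GA k ξ)).ge) (genericPoint (PX k ξ)) trivial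
        ((Proj.awayToSection (GA k ξ) 1).hom (fromZeroRingHom (GA k ξ) (Submonoid.powers 1) a))
    have h5 := TopCat.Presheaf.germ_res_apply (PX k ξ).presheaf
        (homOfLE (Proj.basicOpen_mono (GA k ξ) _ _ ⟨_, (one_mul (ys k ξ i)).symm⟩))
        (genericPoint (PX k ξ)) hη
        ((Proj.awayToSection (GA k ξ) 1).hom (fromZeroRingHom (GA k ξ) (Submonoid.powers 1) a))
    rw [h4, ← h5, ← h2]
    congr 2
  rw [h3, hκ i]
  simp

/-- the structure morphism -/
noncomputable def strMor : PX k ξ ⟶ Spec (CommRingCat.of k) :=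
  (PX k ξ).toSpecΓ ≫ Spec.map (CommRingCat.ofHom (cst k ξ) ≫ phi k ξ)

theorem proper_str [Finite I] : IsProper (strMor k ξ) := by
  have h1 : IsIso (CommRingCat.ofHom (cst k ξ)) :=
    (ConcreteCategory.isIso_iff_bijective _).mpr (cst_bijective k ξ)
  have h2 : IsProper (Proj.toSpecZero (GA k ξ)) := inferInstance
  rw [toSpecZero_eq'] at h2
  have h3 : strMor k ξ = ((PX k ξ).toSpecΓ ≫ Spec.map (phi k ξ)) ≫
      Spec.map (CommRingCat.ofHom (cst k ξ)) := by
    rw [strMor, Spec.map_comp, Category.assoc]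
  rw [h3]
  infer_instance

lemma kmap_str [IsIntegral (PX k ξ)] (c : k) : kmap (strMor k ξ) c =
    (PX k ξ).presheaf.germ ⊤ (genericPoint (PX k ξ)) trivial ((phi k ξ).hom (cst k ξ c)) := by
  have h : (Scheme.ΓSpecIso (CommRingCat.of k)).inv ≫ (strMor k ξ).appTop =
      CommRingCat.ofHom (cst k ξ) ≫ phi k ξ := by
    rw [strMor, Scheme.Hom.comp_appTop, ← Scheme.ΓSpecIso_inv_naturality_assoc,
      Scheme.toSpecΓ_appTop, Iso.inv_hom_id, Category.comp_id]
  unfold kmap
  rw [h]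
  rfl

end Pool.Agent.W933.CB
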