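import Pool.Agent.W933.CB.Model

/-!
# CB-PROJ: projective varieties with given homogeneous coordinates
-/

set_option autoImplicit false

open AlgebraicGeometry CategoryTheory HomogeneousLocalization Order

namespace Pool.Agent.W933.CB

open Pool.Agent.H187R3 Pool.Agent.W525.CB

variable (k : Type) {E : Type} [Field k] [Field E] [Algebra k E] {I : Type} (ξ : I → E)

lemma isUnit_mapId' {A : Type} [CommRing A] (𝒜 : ℕ → AddSubgroup A) [GradedRing 𝒜] (P : Ideal A)
    [P.IsPrime] {f g : A} (hf : f ∈ 𝒜 1) (hg : g ∈ 𝒜 (1 • 1))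
    (hP : Submonoid.powers f ≤ P.primeCompl) :
    IsUnit (HomogeneousLocalization.mapId 𝒜 hP (Away.mk 𝒜 hf 1 g hg)) ↔ g ∉ P := by
  rw [← isUnit_iff_isUnit_val]
  have h : (HomogeneousLocalization.mapId 𝒜 hP (Away.mk 𝒜 hf 1 g hg)).val =
    Localization.mk g ⟨f ^ 1, hP ⟨1, rfl⟩⟩ := rfl
  rw [h, Localization.mk_eq_mk', IsLocalization.AtPrime.isUnit_mk'_iff _ P]
  rfl

/-- germs of elements of the chart ring -/
noncomputable def gsx (i : I) (x : PX k ξ) (hx : x ∈ Proj.basicOpen (GA k ξ) (ys k ξ i)) :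
    Away (GA k ξ) (ys k ξ i) →+* (PX k ξ).presheaf.stalk x :=
  (((PX k ξ).presheaf.germ _ x hx).hom).comp (Proj.awayToSection (GA k ξ) (ys k ξ i)).hom

lemma kap_gsx [IsIntegral (PX k ξ)] (κ : (PX k ξ).functionField →+* E) (i : I) (x : PX k ξ)
    (hx : x ∈ Proj.basicOpen (GA k ξ) (ys k ξ i))
    (hη : genericPoint (PX k ξ) ∈ Proj.basicOpen (GA k ξ) (ys k ξ i))
    (a : Away (GA k ξ) (ys k ξ i)) :
    κ (algebraMap _ (PX k ξ).functionField (gsx k ξ i x hx a)) =
      κ ((PX k ξ).presheaf.germ _ (genericPoint (PX k ξ)) hη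
        ((Proj.awayToSection (GA k ξ) (ys k ξ i)).hom a)) := by
  have : Nonempty (Proj.basicOpen (GA k ξ) (ys k ξ i)) := ⟨⟨x, hx⟩⟩
  have h := Scheme.algebraMap_germ_eq_germToFunctionField (X := PX k ξ) hx
    ((Proj.awayToSection (GA k ξ) (ys k ξ i)).hom a)
  change κ (algebraMap _ (PX k ξ).functionField ((PX k ξ).presheaf.germ _ x hx
    ((Proj.awayToSection (GA k ξ) (ys k ξ i)).hom a))) = _
  rw [h]

/-- `ξ_j/ξ_i` is a unit of the stalk at `x ∈ D₊(ξ_i)` iff `x ∈ D₊(ξ_j)` -/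
theorem unit_iff' [Nonempty I] [IsIntegral (PX k ξ)] (hξ : ∀ i, ξ i ≠ 0)
    (κ : (PX k ξ).functionField →+* E) (hκ : KSpec k ξ κ) (i j : I) (x : PX k ξ)
    (hx : x ∈ Proj.basicOpen (GA k ξ) (ys k ξ i)) :
    ∃ a : (PX k ξ).presheaf.stalk x, κ (algebraMap _ (PX k ξ).functionField a) = ξ j / ξ i ∧
      (IsUnit a ↔ x ∈ Proj.basicOpen (GA k ξ) (ys k ξ j)) := by
  have hj : ys k ξ j ∈ GA k ξ (1 • 1) := ys_mem k ξ j
  have hη := generic_mem_of k ξ hξ (ys k ξ i) (ys_ne k ξ hξ i)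
  refine ⟨gsx k ξ i x hx (Away.mk (GA k ξ) (ys_mem k ξ i) 1 (ys k ξ j) hj), ?_, ?_⟩
  · rw [kap_gsx k ξ κ i x hx hη]
    have h1 := hκ i 1 (ys k ξ j) hj hη
    refine h1.trans ?_
    rw [ys, coe_mo, Polynomial.coeff_monomial, if_pos rfl, pow_one]
  · have h1 := ProjectiveSpectrum.Proj.awayToSection_germ (GA k ξ) (ys k ξ i) x hx
    have h2 : gsx k ξ i x hx (Away.mk (GA k ξ) (ys_mem k ξ i) 1 (ys k ξ j) hj) =
        (Proj.stalkIso (GA k ξ) x).commRingCatIsoToRingEquiv.symm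
          (HomogeneousLocalization.mapId (GA k ξ) (Submonoid.powers_le.mpr hx)
            (Away.mk (GA k ξ) (ys_mem k ξ i) 1 (ys k ξ j) hj)) := by
      have h3 := congrArg (fun f => f.hom (Away.mk (GA k ξ) (ys_mem k ξ i) 1 (ys k ξ j) hj)) h1
      exact h3
    rw [h2, MulEquiv.isUnit_map]
    exact @isUnit_mapId' (RA k ξ) _ (GA k ξ) _ _ (ProjectiveSpectrum.isPrime x) _ _ _ _ _

lemma stalk_inj {X : Scheme.{0}} [IsIntegral X] (κ : X.functionField →+* E) (x : X)
    {a b : X.presheaf.stalk x} (h : κ (algebraMap _ X.functionField a) =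
      κ (algebraMap _ X.functionField b)) : a = b := by
  have h1 := κ.injective h
  exact IsFractionRing.injective (X.presheaf.stalk x) X.functionField h1

theorem unit_model [Nonempty I] [IsIntegral (PX k ξ)] (hξ : ∀ i, ξ i ≠ 0)
    (κ : (PX k ξ).functionField →+* E) (hκ : KSpec k ξ κ) (x : PX k ξ) (i j : I)
    (hx : x ∈ Proj.basicOpen (GA k ξ) (ys k ξ i)) :
    x ∈ Proj.basicOpen (GA k ξ) (ys k ξ j) ↔ ξ i / ξ j ∈ locIn κ x := by
  obtain ⟨a, ha, hu⟩ := unit_iff' k ξ hξ κ hκ i j x hx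
  rw [← hu]
  constructor
  · intro h
    obtain ⟨b, hb⟩ := h.exists_right_inv
    refine ⟨b, ?_⟩
    change κ (algebraMap _ _ b) = _
    have h1 : κ (algebraMap _ (PX k ξ).functionField a) *
        κ (algebraMap _ (PX k ξ).functionField b) = 1 := by
      rw [← map_mul, ← map_mul, hb, map_one, map_one]
    rw [ha] at h1
    have h2 := hξ i
    have h3 := hξ j
    field_simp at h1 ⊢
    linear_combination h1
  · rintro ⟨b, hb⟩
    have hb' : κ (algebraMap _ (PX k ξ).functionField b) = ξ i / ξ j := hb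
    refine IsUnit.of_mul_eq_one b ?_
    apply stalk_inj κ x
    rw [map_mul, map_mul, ha, hb', map_one, map_one]
    have h2 := hξ i
    have h3 := hξ j
    field_simp

theorem sec_model [Nonempty I] [IsIntegral (PX k ξ)] (hξ : ∀ i, ξ i ≠ 0)
    (κ : (PX k ξ).functionField →+* E) (hκ : KSpec k ξ κ) (i : I) :
    secIn κ (Proj.basicOpen (GA k ξ) (ys k ξ i)) =
      (Algebra.adjoin k (Set.range fun j => ξ j / ξ i) : Set E) := by
  ext e
  rw [SetLike.mem_coe, chart_ring k ξ hξ i e]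
  constructor
  · rintro ⟨hη, σ, rfl⟩
    obtain ⟨z, hz⟩ : ∃ z, (Proj.awayToSection (GA k ξ) (ys k ξ i)).hom z = σ := by
      refine ⟨(Proj.basicOpenIsoAway (GA k ξ) (ys k ξ i) (ys_mem k ξ i) one_pos).inv.hom σ, ?_⟩
      have h2 := (Proj.basicOpenIsoAway (GA k ξ) (ys k ξ i) (ys_mem k ξ i) one_pos).inv_hom_id
      rw [Proj.basicOpenIsoAway_hom] at h2
      exact congrArg (fun φ => φ.hom σ) h2
    obtain ⟨n, s, hs, rfl⟩ := Away.mk_surjective (GA k ξ) (ys_mem k ξ i) z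
    refine ⟨n, (s : Polynomial E).coeff n, s.2 n, ?_⟩
    rw [← hz]
    exact hκ i n s hs hη
  · rintro ⟨n, c, hc, rfl⟩
    have hη := generic_mem_of k ξ hξ (ys k ξ i) (ys_ne k ξ hξ i)
    have hm : mo k ξ n c hc ∈ GA k ξ (n * 1) := by
      rw [mul_one]; exact mo_mem k ξ n c hc
    refine ⟨hη, (Proj.awayToSection (GA k ξ) (ys k ξ i)).hom
      (Away.mk (GA k ξ) (ys_mem k ξ i) n (mo k ξ n c hc) hm), ?_⟩
    refine (hκ i n (mo k ξ n c hc) hm hη).trans ?_
    rw [coe_mo, Polynomial.coeff_monomial, if_pos rfl]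

theorem noeth_model [Finite I] : IsLocallyNoetherian (PX k ξ) := by
  have h1 := proper_str k ξ
  have : IsLocallyNoetherian (Spec (CommRingCat.of k)) := inferInstance
  exact LocallyOfFiniteType.isLocallyNoetherian (strMor k ξ)

lemma ord_one'' {X : Scheme.{0}} [IsIntegral X] [IsLocallyNoetherian X] (y : X) :
    Scheme.ord (1 : X.functionField) y = 0 := by
  have h := Scheme.ord_mul (X := X) (x := y) (f := 1) (g := 1) one_ne_zero one_ne_zero
  rw [one_mul] at h
  omega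

theorem ample_model [Finite I] [Nonempty I] [IsIntegral (PX k ξ)] [IsLocallyNoetherian (PX k ξ)]
    (hξ : ∀ i, ξ i ≠ 0) (κ : (PX k ξ).functionField →+* E) (hκ : KSpec k ξ κ) :
    ∃ Ea : PX k ξ → ℤ, IsAmpleDivisor (PX k ξ) Ea := by
  have hq : ∀ i j : I, ∃ t : (PX k ξ).functionField, κ t = ξ j / ξ i := by
    intro i j
    have hη := generic_mem_of k ξ hξ (ys k ξ i) (ys_ne k ξ hξ i)
    obtain ⟨a, ha, -⟩ := unit_iff' k ξ hξ κ hκ i j (genericPoint (PX k ξ)) hη
    exact ⟨_, ha⟩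
  choose yq hyq using hq
  have hinj : Function.Injective κ := κ.injective
  have yq_ne : ∀ i j, yq i j ≠ 0 := by
    intro i j h
    have := hyq i j
    rw [h, map_zero] at this
    exact div_ne_zero (hξ j) (hξ i) this.symm
  have yq_mul : ∀ i j l, yq i j * yq j l = yq i l := by
    intro i j l
    apply hinj
    rw [map_mul, hyq, hyq, hyq]
    have := hξ i
    have := hξ j
    field_simp
  have yq_self : ∀ i, yq i i = 1 := by
    intro i
    apply hinj
    rw [hyq, map_one, div_self (hξ i)]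
  have hcov := cover_PX k ξ
  choose ch hch using hcov
  have ord_yq : ∀ (i j : I) (x : PX k ξ), x ∈ Proj.basicOpen (GA k ξ) (ys k ξ i) →
      x ∈ Proj.basicOpen (GA k ξ) (ys k ξ j) → Scheme.ord (yq i j) x = 0 := by
    intro i j x hi hj
    by_cases hx : coheight x = 1
    · obtain ⟨a, ha, hu⟩ := unit_iff' k ξ hξ κ hκ i j x hi
      have haU : IsUnit a := hu.mpr hj
      have h1 : algebraMap _ (PX k ξ).functionField a = yq i j := by
        apply hinj; rw [ha, hyq]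
      rw [← h1, Scheme.ord_eq_iff hx (by rw [h1]; exact yq_ne i j)]
      have : Ring.KrullDimLE 1 ((PX k ξ).presheaf.stalk x) := krullDimLE_of_coheight_le hx.le
      exact Ring.ordFrac_of_isUnit haU
    · exact Scheme.ord_eq_zero_of_coheight_neq_one hx _
  let i0 : I := Classical.arbitrary I
  let Ea : PX k ξ → ℤ := fun y => Scheme.ord (yq (ch y) i0) y
  have hE : ∀ (i : I) (y : PX k ξ), y ∈ Proj.basicOpen (GA k ξ) (ys k ξ i) →
      Scheme.ord (yq i i0) y = Ea y := by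
    intro i y hy
    have h1 : yq i i0 = yq i (ch y) * yq (ch y) i0 := (yq_mul i (ch y) i0).symm
    rw [h1, Scheme.ord_mul (yq_ne _ _) (yq_ne _ _), ord_yq i (ch y) y hy (hch y), zero_add]
  refine ⟨Ea, ?_, ?_, ?_⟩
  · have h1 := proper_str k ξ
    exact QuasiCompact.compactSpace_of_compactSpace (strMor k ξ)
  · intro z
    refine ⟨yq (ch z) i0, yq_ne _ _, fun y _ hyz => ?_⟩
    exact hE _ y (hyz.mem_open (Proj.basicOpen (GA k ξ) (ys k ξ (ch z))).isOpen (hch z))
  · intro x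
    refine ⟨1, one_pos, yq i0 (ch x), yq_ne _ _, Proj.basicOpen (GA k ξ) (ys k ξ (ch x)),
      Proj.isAffineOpen_basicOpen (GA k ξ) (ys k ξ (ch x)) (ys_mem k ξ _) one_pos, hch x,
      fun z => ?_⟩
    refine ⟨yq (ch z) i0, ⟨yq_ne _ _, fun y _ hyz => ?_⟩, ?_⟩
    · rw [hE _ y (hyz.mem_open (Proj.basicOpen (GA k ξ) (ys k ξ (ch z))).isOpen (hch z))]
      simp
    · obtain ⟨a, ha, hu⟩ := unit_iff' k ξ hξ κ hκ (ch z) (ch x) z (hch z)
      refine ⟨a, ?_, hu⟩
      apply hinj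
      rw [ha, map_mul, hyq, hyq]
      have := hξ i0
      field_simp

theorem main : S_PROJ := by
  intro k _ _ E _ _ I _ _ ξ hξ
  have hint := integral_PX k ξ hξ
  have hnoe := noeth_model k ξ
  obtain ⟨κ, hκ⟩ := exists_kap k ξ hξ
  exact ⟨{
    X := PX k ξ
    f := strMor k ξ
    integral := hint
    κ := κ
    U := fun i => Proj.basicOpen (GA k ξ) (ys k ξ i)
    noeth := hnoe
    proper := proper_str k ξ
    ample := ample_model k ξ hξ κ hκ
    scal := fun c => by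
      rw [kmap_str, kap_phi k ξ hξ κ hκ, coe_cst, Polynomial.coeff_monomial, if_pos rfl]
    gen := fun i => generic_mem_of k ξ hξ _ (ys_ne k ξ hξ i)
    affine := fun i => Proj.isAffineOpen_basicOpen (GA k ξ) (ys k ξ i) (ys_mem k ξ i) one_pos
    cover := cover_PX k ξ
    sec := sec_model k ξ hξ κ hκ
    unit := fun x i j hx => unit_model k ξ hξ κ hκ x i j hx }⟩

end Pool.Agent.W933.CB
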